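import Pool.Agent.H961R2.Lev.Stubs

open MeasureTheory Set Filter Topology InnerProductSpace Complex

namespace H961Lev

theorem F4_off {E : Set ℝ} {z : ℂ} (hz : z.im ≠ 0) : z ∉ ((fun x : ℝ => (x : ℂ)) '' E) := by
  rintro ⟨x, -, rfl⟩
  exact hz (Complex.ofReal_im x)

theorem F4_offr {E : Set ℝ} {x : ℝ} (hx : x ∉ E) : (x : ℂ) ∉ ((fun x : ℝ => (x : ℂ)) '' E) := by
  rintro ⟨y, hy, h⟩
  have h' : y = x := Complex.ofReal_injective h
  exact hx (h' ▸ hy)

theorem F4_nonneg {E : Set ℝ} {U : ℂ → ℝ} (hU : IsLevin E U) (z : ℂ) : 0 ≤ U z := by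
  by_cases hz : z ∈ ((fun x : ℝ => (x : ℂ)) '' E)
  · obtain ⟨x, hx, rfl⟩ := hz
    exact (hU.zero x hx).ge
  · exact (hU.pos z hz).le

theorem T_F4 : S_H1 → S_F3 → S_F4 := by
  intro hH1 hF3 E E' U U' hE hE' hU hU' hsym' heq
  have hcσ : Continuous fun z : ℂ => -(starRingEnd ℂ) z := (Complex.continuous_conj).neg
  have hσim : ∀ z : ℂ, (-(starRingEnd ℂ) z).im = z.im := fun z => by simp
  -- harmonicity of the difference
  have hharm : HarmonicOnNhd ((1 / 2 : ℝ) • (U + fun w => U (-(starRingEnd ℂ) w)) - U')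
      {z : ℂ | 0 < z.im} := by
    intro z hz
    have hz' : 0 < z.im := hz
    have h1 : HarmonicAt U z := hU.harm z (F4_off hz'.ne')
    have h2 : HarmonicAt U (-(starRingEnd ℂ) z) :=
      hU.harm _ (F4_off (by rw [hσim]; exact hz'.ne'))
    have h3 : HarmonicAt U' z := hU'.harm z (F4_off hz'.ne')
    exact ((h1.add (hH1.2 U z h2)).const_smul).sub h3
  have hD := hF3 _ hharm (by
    intro z hz
    simp only [Pi.sub_apply, Pi.smul_apply, Pi.add_apply, smul_eq_mul]
    rw [hsym' z]
    have : -(starRingEnd ℂ) (-(starRingEnd ℂ) z) = z := by simp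
    rw [this]
    ring) (by
    intro y hy
    simp only [Pi.sub_apply, Pi.smul_apply, Pi.add_apply, smul_eq_mul]
    have : -(starRingEnd ℂ) ((y : ℂ) * I) = (y : ℂ) * I := by
      rw [map_mul, Complex.conj_ofReal, Complex.conj_I]
      ring
    rw [this, heq y hy]
    ring)
  have hup : ∀ z : ℂ, 0 < z.im → U' z = (U z + U (-(starRingEnd ℂ) z)) / 2 := by
    intro z hz
    have := hD z hz
    simp only [Pi.sub_apply, Pi.smul_apply, Pi.add_apply, smul_eq_mul] at this
    linarith
  have hall : ∀ z : ℂ, U' z = (U z + U (-(starRingEnd ℂ) z)) / 2 := by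
    intro z
    rcases lt_trichotomy z.im 0 with h | h | h
    · have h1 := hup ((starRingEnd ℂ) z) (by simpa using h)
      rw [hU'.symm, hU.symm] at h1
      have h2 : U (-(starRingEnd ℂ) ((starRingEnd ℂ) z)) = U (-(starRingEnd ℂ) z) := by
        rw [← hU.symm (-(starRingEnd ℂ) ((starRingEnd ℂ) z))]
        congr 1
        simp
      rw [h2] at h1
      exact h1
    · have h1 : EqOn (fun t : ℝ => U' (z + t * I))
          (fun t : ℝ => (U (z + t * I) + U (-(starRingEnd ℂ) (z + t * I))) / 2) (Ioi 0) := by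
        intro t ht
        have ht' : 0 < t := ht
        exact hup _ (by simp [h, ht'])
      have hc0 : Continuous fun t : ℝ => z + t * I := by fun_prop
      have h2 := h1.closure (hU'.cont.comp hc0)
        (((hU.cont.comp hc0).add (hU.cont.comp (hcσ.comp hc0))).div_const 2)
      rw [closure_Ioi] at h2
      have h3 := h2 (mem_Ici.2 (le_refl (0:ℝ)))
      simpa using h3
    · exact hup z h
  apply Subset.antisymm
  · intro x hx
    by_contra hx'
    have hU0 := hU.zero x hx
    have h1 := hall x
    rw [hU0, zero_add] at h1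
    have h2 := hU'.pos _ (F4_offr hx')
    have hσx : -(starRingEnd ℂ) (x : ℂ) = ((-x : ℝ) : ℂ) := by simp
    have h3 : 0 < U ((-x : ℝ) : ℂ) := by
      rw [← hσx]
      linarith
    have h4 : -x ∉ E := fun h => by
      rw [hU.zero _ h] at h3
      exact lt_irrefl _ h3
    have hfun : U = (2 : ℝ) • U' - fun w => U (-(starRingEnd ℂ) w) := by
      funext z
      simp only [Pi.sub_apply, Pi.smul_apply, smul_eq_mul]
      rw [hall z]
      ring
    have hhx : HarmonicAt U (x : ℂ) := by
      rw [hfun]
      refine (HarmonicAt.const_smul (hU'.harm _ (F4_offr hx'))).sub (hH1.2 U x ?_)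
      rw [hσx]
      exact hU.harm _ (F4_offr h4)
    obtain ⟨ε, hε, hball⟩ := Metric.eventually_nhds_iff_ball.1 hhx.eventually
    have hr : 0 < ε / 2 := by positivity
    have hon : HarmonicOnNhd U (Metric.closedBall (x : ℂ) |ε / 2|) := by
      intro z hz
      apply hball
      rw [Metric.mem_closedBall, abs_of_pos hr] at hz
      rw [Metric.mem_ball]
      linarith
    have havg := hon.circleAverage_eq
    rw [hU0, Real.circleAverage_def, smul_eq_mul] at havg
    have hpi := Real.pi_pos
    have hpos : 0 < ∫ θ in (0:ℝ)..(2 * Real.pi), U (circleMap (x : ℂ) (ε / 2) θ) := by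
      refine intervalIntegral.integral_pos (by positivity) ?_ ?_ ?_
      · exact (hU.cont.comp (continuous_circleMap _ _)).continuousOn
      · intro θ _
        exact F4_nonneg hU _
      · refine ⟨Real.pi / 2, ⟨by positivity, by linarith⟩, ?_⟩
        apply hU.pos
        apply F4_off
        unfold circleMap
        simp only [Complex.add_im, Complex.ofReal_im, zero_add, Complex.mul_im,
          Complex.ofReal_re, zero_mul, add_zero]
        rw [Complex.exp_im]
        simp
        exact hε.ne'
    rw [mul_eq_zero] at havg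
    rcases havg with h | h
    · have : (2 * Real.pi)⁻¹ ≠ 0 := by positivity
      exact this h
    · linarith
  · intro x hx
    by_contra hx'
    have h1 := hall x
    rw [hU'.zero x hx] at h1
    have h2 := hU.pos _ (F4_offr hx')
    have h3 := F4_nonneg hU (-(starRingEnd ℂ) (x : ℂ))
    linarith

end H961Lev
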