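import Pool.Agent.H961R2.Lev.Stubs

open MeasureTheory Set Filter Topology InnerProductSpace Complex

namespace H961Lev

theorem P2_continuous_zet (R : ℝ) : Continuous (zet R) := by
  unfold zet
  fun_prop

theorem P2_zet_re (R t : ℝ) : (zet R t).re = R * Real.sin (t / R) := by
  unfold zet
  rw [Complex.add_re, Complex.ofReal_re, Complex.mul_re, Complex.ofReal_im, Complex.I_re]
  ring

theorem P2_zet_im (R t : ℝ) : (zet R t).im = R * (1 - Real.cos (t / R)) := by
  unfold zet
  rw [Complex.add_im, Complex.ofReal_im, Complex.mul_im, Complex.ofReal_im, Complex.I_im,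
    Complex.ofReal_re]
  ring

theorem P2_im_nonneg {R : ℝ} (hR : 0 < R) (t : ℝ) : 0 ≤ (zet R t).im := by
  rw [P2_zet_im]
  have := Real.cos_le_one (t / R)
  exact mul_nonneg hR.le (by linarith)

theorem P2_im_le {R : ℝ} (hR : 0 < R) (t : ℝ) : (zet R t).im ≤ t ^ 2 / (2 * R) := by
  rw [P2_zet_im]
  have h1 := Real.one_sub_sq_div_two_le_cos (x := t / R)
  have h2 : R * (1 - Real.cos (t / R)) ≤ R * ((t / R) ^ 2 / 2) :=
    mul_le_mul_of_nonneg_left (by linarith) hR.le
  have h3 : R * ((t / R) ^ 2 / 2) = t ^ 2 / (2 * R) := by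
    field_simp
  linarith

theorem P2_re_le {R : ℝ} (hR : 0 < R) (t : ℝ) : |(zet R t).re| ≤ |t| := by
  rw [P2_zet_re, abs_mul, abs_of_pos hR]
  have h1 : |Real.sin (t / R)| ≤ |t / R| := Real.abs_sin_le_abs
  have h2 := mul_le_mul_of_nonneg_left h1 hR.le
  rw [abs_div, abs_of_pos hR, mul_div_cancel₀ _ hR.ne'] at h2
  exact h2

theorem P2_tendsto_zet (t : ℝ) : Tendsto (fun R : ℝ => zet R t) atTop (𝓝 (t : ℂ)) := by
  have hinv : Tendsto (fun R : ℝ => R⁻¹) atTop (𝓝[≠] 0) :=
    (tendsto_inv_atTop_nhdsGT_zero (𝕜 := ℝ)).mono_right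
      (nhdsWithin_mono _ fun x (hx : 0 < x) => (ne_of_gt hx : x ≠ 0))
  have hs : Tendsto (fun R : ℝ => R * Real.sin (t / R)) atTop (𝓝 t) := by
    have h1 : HasDerivAt (fun x : ℝ => Real.sin (t * x)) t 0 := by
      have h2 : HasDerivAt (fun x : ℝ => t * x) t 0 := by
        simpa using (hasDerivAt_id (0:ℝ)).const_mul t
      have h3 := h2.sin
      simpa using h3
    rw [hasDerivAt_iff_tendsto_slope] at h1
    refine (h1.comp hinv).congr' ?_
    filter_upwards [eventually_gt_atTop (0:ℝ)] with R hR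
    simp only [Function.comp_apply, slope_def_field, mul_zero, Real.sin_zero, sub_zero]
    rw [div_eq_mul_inv t R, div_eq_mul_inv, inv_inv, mul_comm]
  have hc : Tendsto (fun R : ℝ => R * (1 - Real.cos (t / R))) atTop (𝓝 0) := by
    have h1 : HasDerivAt (fun x : ℝ => 1 - Real.cos (t * x)) 0 0 := by
      have h2 : HasDerivAt (fun x : ℝ => t * x) t 0 := by
        simpa using (hasDerivAt_id (0:ℝ)).const_mul t
      have h3 := (h2.cos).const_sub 1
      simpa using h3
    rw [hasDerivAt_iff_tendsto_slope] at h1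
    refine (h1.comp hinv).congr' ?_
    filter_upwards [eventually_gt_atTop (0:ℝ)] with R hR
    simp only [Function.comp_apply, slope_def_field, mul_zero, Real.cos_zero, sub_self, sub_zero]
    rw [div_eq_mul_inv t R, div_eq_mul_inv, inv_inv, mul_comm]
  unfold zet
  have h1 := ((Complex.continuous_ofReal.tendsto t).comp hs).add
    (((Complex.continuous_ofReal.tendsto 0).comp hc).mul_const I)
  simpa using h1

theorem T_P2 : S_P2 := by
  intro u hu z hz M hM
  set y : ℝ := z.im with hy
  -- bound of u on a compact set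
  have hK : IsCompact {w : ℂ | |w.re| ≤ M ∧ 0 ≤ w.im ∧ w.im ≤ 1} := by
    have h1 : {w : ℂ | |w.re| ≤ M ∧ 0 ≤ w.im ∧ w.im ≤ 1} = Icc (-M) M ×ℂ Icc 0 1 := by
      ext w
      simp only [mem_ofPred_eq, Complex.mem_reProdIm, mem_Icc, abs_le]
    rw [h1]
    exact isCompact_Icc.reProdIm isCompact_Icc
  obtain ⟨B, hB⟩ := hK.exists_bound_of_continuousOn
    (hu.cont.mono fun w (hw : |w.re| ≤ M ∧ 0 ≤ w.im ∧ w.im ≤ 1) => hw.2.1)
  rw [← intervalIntegral.integral_const_mul]
  refine intervalIntegral.tendsto_integral_filter_of_dominated_convergence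
    (fun _ => |B| * ((2 * y + ‖z‖ ^ 2) / (y / 2) ^ 2)) ?_ ?_ ?_ ?_
  · filter_upwards [eventually_gt_atTop (0:ℝ)] with R hR
    have h1 : Continuous fun t => u (zet R t) :=
      hu.cont.comp_continuous (P2_continuous_zet R) fun t => P2_im_nonneg hR t
    have h2 : Measurable fun t => KR R z t := by
      unfold KR
      refine Measurable.div measurable_const ?_
      have : Continuous fun t => R * ‖zet R t - z‖ ^ 2 :=
        continuous_const.mul ((((P2_continuous_zet R).sub continuous_const).norm).pow 2)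
      exact this.measurable
    exact (h1.measurable.mul h2).aestronglyMeasurable
  · filter_upwards [eventually_gt_atTop (0:ℝ), eventually_ge_atTop (1:ℝ),
      eventually_ge_atTop (M ^ 2 / y), eventually_ge_atTop (M ^ 2 / 2)] with R hR hR1 hR2 hR3
    refine Eventually.of_forall fun t ht => ?_
    have htM : |t| ≤ M := by
      rw [uIoc_of_le (by linarith)] at ht
      exact abs_le.2 ⟨ht.1.le, ht.2⟩
    have ht2 : t ^ 2 ≤ M ^ 2 := by
      rw [← sq_abs]
      exact pow_le_pow_left₀ (abs_nonneg _) htM 2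
    have hre : |(zet R t).re| ≤ M := (P2_re_le hR t).trans htM
    have him0 := P2_im_nonneg hR t
    have him1 : (zet R t).im ≤ M ^ 2 / (2 * R) := (P2_im_le hR t).trans (by gcongr)
    have him2 : (zet R t).im ≤ 1 := by
      refine him1.trans ?_
      rw [div_le_one (by positivity)]
      linarith
    have him3 : (zet R t).im ≤ y / 2 := by
      refine him1.trans ?_
      rw [div_le_div_iff₀ (by positivity) (by positivity)]
      rw [div_le_iff₀ hz] at hR2
      nlinarith
    have hub : |u (zet R t)| ≤ |B| := (hB _ ⟨hre, him0, him2⟩).trans (le_abs_self B)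
    have hdist : y / 2 ≤ ‖zet R t - z‖ := by
      have h1 := Complex.abs_im_le_norm (zet R t - z)
      rw [Complex.sub_im] at h1
      have h2 : y / 2 ≤ |(zet R t).im - z.im| := by
        rw [abs_sub_comm]
        refine le_trans ?_ (le_abs_self _)
        rw [← hy]
        linarith
      exact h2.trans h1
    have hKR : |KR R z t| ≤ (2 * y + ‖z‖ ^ 2) / (y / 2) ^ 2 := by
      unfold KR
      rw [abs_div]
      have h1 : |2 * R * z.im - ‖z‖ ^ 2| ≤ R * (2 * y + ‖z‖ ^ 2) := by
        rw [← hy]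
        refine (abs_sub _ _).trans ?_
        rw [abs_of_pos (by positivity : 0 < 2 * R * y), abs_of_nonneg (by positivity : 0 ≤ ‖z‖ ^ 2)]
        nlinarith [sq_nonneg ‖z‖]
      have h2 : R * (y / 2) ^ 2 ≤ |R * ‖zet R t - z‖ ^ 2| := by
        rw [abs_of_nonneg (by positivity)]
        gcongr
      calc |2 * R * z.im - ‖z‖ ^ 2| / |R * ‖zet R t - z‖ ^ 2|
          ≤ (R * (2 * y + ‖z‖ ^ 2)) / (R * (y / 2) ^ 2) :=
            div_le_div₀ (by positivity) h1 (by positivity) h2
        _ = (2 * y + ‖z‖ ^ 2) / (y / 2) ^ 2 := by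
            rw [mul_div_mul_left _ _ hR.ne']
    rw [Real.norm_eq_abs, abs_mul]
    exact mul_le_mul hub hKR (abs_nonneg _) (abs_nonneg _)
  · exact intervalIntegrable_const
  · refine Eventually.of_forall fun t _ => ?_
    have hzt := P2_tendsto_zet t
    have h1 : Tendsto (fun R : ℝ => u (zet R t)) atTop (𝓝 (u (t : ℂ))) := by
      have hc : ContinuousWithinAt u {z : ℂ | 0 ≤ z.im} (t : ℂ) :=
        hu.cont _ (by simp)
      refine hc.tendsto.comp (tendsto_nhdsWithin_iff.2 ⟨hzt, ?_⟩)
      filter_upwards [eventually_gt_atTop (0:ℝ)] with R hR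
      exact P2_im_nonneg hR t
    have hne : ‖(t : ℂ) - z‖ ^ 2 ≠ 0 := by
      apply pow_ne_zero
      rw [norm_ne_zero_iff]
      intro h
      have : ((t : ℂ) - z).im = 0 := by rw [h]; rfl
      rw [Complex.sub_im, Complex.ofReal_im] at this
      rw [hy] at hz
      linarith
    have h2 : Tendsto (fun R : ℝ => KR R z t) atTop (𝓝 (2 * y / ‖(t : ℂ) - z‖ ^ 2)) := by
      have h3 : Tendsto (fun R : ℝ => (2 * y - ‖z‖ ^ 2 * R⁻¹) / ‖zet R t - z‖ ^ 2) atTop
          (𝓝 ((2 * y - ‖z‖ ^ 2 * 0) / ‖(t : ℂ) - z‖ ^ 2)) := by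
        refine Tendsto.div ?_ (((hzt.sub_const z).norm).pow 2) hne
        exact tendsto_const_nhds.sub ((tendsto_inv_atTop_zero).const_mul _)
      rw [mul_zero, sub_zero] at h3
      refine h3.congr' ?_
      filter_upwards [eventually_gt_atTop (0:ℝ)] with R hR
      unfold KR
      rw [← hy, mul_comm R (‖zet R t - z‖ ^ 2), ← div_div, div_right_comm]
      congr 1
      field_simp
    have h4 := h1.mul h2
    have h5 : u (t : ℂ) * (2 * y / ‖(t : ℂ) - z‖ ^ 2) =
        2 * Real.pi * (PK z.im (z.re - t) * u (t : ℂ)) := by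
      have h6 : ‖(t : ℂ) - z‖ ^ 2 = (z.re - t) ^ 2 + y ^ 2 := by
        rw [Complex.sq_norm, Complex.normSq_apply, Complex.sub_re, Complex.sub_im,
          Complex.ofReal_re, Complex.ofReal_im, hy]
        ring
      have h7 : (z.re - t) ^ 2 + y ^ 2 ≠ 0 := by rw [← h6]; exact hne
      have hpi := Real.pi_ne_zero
      rw [h6]
      unfold PK
      rw [← hy]
      field_simp
    rw [h5] at h4
    exact h4

end H961Lev
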