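import Pool.Agent.H306R2.RZ.Defs

set_option autoImplicit false

namespace Pool.Agent.H60R2.RZE5

open Finset Filter Topology MeasureTheory Pool.Agent.H306R2.RZ

/-- Abel summation in one variable, with a weight vanishing beyond `N` -/
theorem abel1 (A φ : ℕ → ℝ) (N : ℕ) (h : ∀ a, N < a → φ a = 0) :
    ∑ a ∈ Icc 1 N, A a * φ a = ∑ i ∈ Icc 1 N, (∑ a ∈ Icc 1 i, A a) * (φ i - φ (i + 1)) := by
  have key : ∀ M : ℕ, ∑ i ∈ Icc 1 M, (∑ a ∈ Icc 1 i, A a) * (φ i - φ (i + 1)) =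
      ∑ a ∈ Icc 1 M, A a * φ a - (∑ a ∈ Icc 1 M, A a) * φ (M + 1) := by
    intro M
    induction M with
    | zero => simp
    | succ M ih =>
      rw [Finset.sum_Icc_succ_top (by omega), ih, Finset.sum_Icc_succ_top (by omega),
        Finset.sum_Icc_succ_top (by omega)]
      ring
  rw [key N, h (N + 1) (by omega), mul_zero, sub_zero]

theorem E5 (A φ : ℕ → ℕ → ℝ) (N : ℕ) (h1 : ∀ a b, N < a → φ a b = 0) (h2 : ∀ a b, N < b → φ a b = 0) :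
    ∑ a ∈ Icc 1 N, ∑ b ∈ Icc 1 N, A a b * φ a b =
      ∑ i ∈ Icc 1 N, ∑ j ∈ Icc 1 N, (∑ a ∈ Icc 1 i, ∑ b ∈ Icc 1 j, A a b) *
        (φ (i + 1) (j + 1) - φ (i + 1) j - φ i (j + 1) + φ i j) := by
  have s1 : ∑ a ∈ Icc 1 N, ∑ b ∈ Icc 1 N, A a b * φ a b =
      ∑ j ∈ Icc 1 N, ∑ a ∈ Icc 1 N, (∑ b ∈ Icc 1 j, A a b) * (φ a j - φ a (j + 1)) := by
    rw [Finset.sum_comm (s := Icc 1 N) (t := Icc 1 N)
      (f := fun j a => (∑ b ∈ Icc 1 j, A a b) * (φ a j - φ a (j + 1)))]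
    refine Finset.sum_congr rfl fun a _ => ?_
    exact abel1 (A a) (φ a) N (fun b hb => h2 a b hb)
  rw [s1, Finset.sum_comm (s := Icc 1 N) (t := Icc 1 N) (f := fun i j =>
    (∑ a ∈ Icc 1 i, ∑ b ∈ Icc 1 j, A a b) *
        (φ (i + 1) (j + 1) - φ (i + 1) j - φ i (j + 1) + φ i j))]
  refine Finset.sum_congr rfl fun j _ => ?_
  rw [abel1 (fun a => ∑ b ∈ Icc 1 j, A a b) (fun a => φ a j - φ a (j + 1)) N
    (fun a ha => by rw [h1 a j ha, h1 a (j + 1) ha, sub_zero])]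
  refine Finset.sum_congr rfl fun i _ => ?_
  ring

end Pool.Agent.H60R2.RZE5
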