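import Pool.Agent.H306R2.RZ.Defs
import Pool.Agent.H60R2.RZ_E5
import Pool.Agent.H510R2.Div

set_option autoImplicit false

namespace Pool.Agent.H60R2.RZE6

open Finset Filter Topology MeasureTheory Pool.Agent.H306R2.RZ

/-- the statement of E3 -/
def SE3 : Prop := ∀ (q : ℕ) (_ : Even q) (_ : q ≠ 0) (ε : ℝ) (_ : 0 < ε), ∃ C : ℝ, 0 < C ∧
    ∀ (k : ℤ) (l N1 N2 : ℕ), ¬ IsSquare k → Odd l →
    |∑ a ∈ Icc 1 N1, ∑ b ∈ Icc 1 N2,
      if (a * b).Coprime q then Gk k (a * b * l) / Real.sqrt ((a : ℝ) * b) else 0| ≤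
      C * ((N1 : ℝ) * N2) ^ (1 / 2 + ε) * (k.natAbs : ℝ) ^ (1 / 2 + ε) * (l : ℝ) ^ (1 / 2 + ε) *
        Real.sqrt (k.natAbs.gcd l)

/-- the statement of E4 -/
def SE4 : Prop := ∀ (F : ℝ → ℝ) (_ : TF F) (A : ℝ) (_ : 0 ≤ A), ∃ C : ℝ, 0 < C ∧
    ∀ (X L : ℝ) (w1 w2 : ℝ → ℝ) (s B1 B2 : ℝ) (k : ℤ) (l a b : ℕ), 0 < X → 1 ≤ L →
      Wt s w1 → Wt s w2 → Bd 1 w1 B1 → Bd 1 w2 B2 → k ≠ 0 → 1 ≤ l → 1 ≤ a → 1 ≤ b →
      |ph F X L w1 w2 k l (a + 1) (b + 1) - ph F X L w1 w2 k l (a + 1) b -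
        ph F X L w1 w2 k l a (b + 1) + ph F X L w1 w2 k l a b| ≤
      C * B1 * B2 / (((a : ℝ) * b) ^ 2 * l) * ((a : ℝ) * b * l / (k.natAbs * X)) ^ A

/-- the statement of E5 -/
def SE5 : Prop := ∀ (A φ : ℕ → ℕ → ℝ) (N : ℕ) (_ : ∀ a b, N < a → φ a b = 0)
    (_ : ∀ a b, N < b → φ a b = 0),
    ∑ a ∈ Icc 1 N, ∑ b ∈ Icc 1 N, A a b * φ a b =
      ∑ i ∈ Icc 1 N, ∑ j ∈ Icc 1 N, (∑ a ∈ Icc 1 i, ∑ b ∈ Icc 1 j, A a b) *
        (φ (i + 1) (j + 1) - φ (i + 1) j - φ i (j + 1) + φ i j)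

/-- powers -/
theorem pow_id (e t κ l X : ℝ) (ht : 0 < t) (hκ : 0 < κ) (hl : 0 < l) (hX : 0 < X) :
    t ^ (1 / 2 + e) * κ ^ (1 / 2 + e) * l ^ (1 / 2 + e) *
      (1 / (t ^ 2 * l) * (t * l / (κ * X)) ^ (3 / 2 + 3 * e)) =
    t ^ (4 * e) * l ^ (1 + 4 * e) * κ ^ (-(1 + 2 * e)) * X ^ (-(3 / 2) - 3 * e) := by
  have h1 : (t * l / (κ * X)) ^ (3 / 2 + 3 * e) =
      t ^ (3 / 2 + 3 * e) * l ^ (3 / 2 + 3 * e) * κ ^ (-(3 / 2 + 3 * e)) * X ^ (-(3 / 2 + 3 * e)) := by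
    rw [Real.div_rpow (by positivity) (by positivity), Real.mul_rpow ht.le hl.le,
      Real.mul_rpow hκ.le hX.le, Real.rpow_neg hκ.le, Real.rpow_neg hX.le]
    field_simp
  have h2 : 1 / (t ^ 2 * l) = t ^ (-2 : ℝ) * l ^ (-1 : ℝ) := by
    rw [Real.rpow_neg ht.le, Real.rpow_neg hl.le, Real.rpow_one,
      show (2 : ℝ) = ((2 : ℕ) : ℝ) by norm_num, Real.rpow_natCast]
    field_simp
  rw [h1, h2]
  have ht' : t ^ (4 * e) = t ^ (1 / 2 + e) * t ^ (-2 : ℝ) * t ^ (3 / 2 + 3 * e) := by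
    rw [← Real.rpow_add ht, ← Real.rpow_add ht]; congr 1; ring
  have hl' : l ^ (1 + 4 * e) = l ^ (1 / 2 + e) * l ^ (-1 : ℝ) * l ^ (3 / 2 + 3 * e) := by
    rw [← Real.rpow_add hl, ← Real.rpow_add hl]; congr 1; ring
  have hk' : κ ^ (-(1 + 2 * e)) = κ ^ (1 / 2 + e) * κ ^ (-(3 / 2 + 3 * e)) := by
    rw [← Real.rpow_add hκ]; congr 1; ring
  have hX' : X ^ (-(3 / 2) - 3 * e) = X ^ (-(3 / 2 + 3 * e)) := by congr 1; ring
  rw [ht', hl', hk', hX']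
  ring

/-- the sum over the frequencies -/
theorem sum_freq (e : ℝ) (he : 0 < e) : ∃ C : ℝ, 0 < C ∧ ∀ l : ℕ, 1 ≤ l →
    Summable (fun k : ℤ => |(k : ℝ)| ^ (-(1 + 2 * e)) * Real.sqrt (k.natAbs.gcd l)) ∧
    ∑' k : ℤ, |(k : ℝ)| ^ (-(1 + 2 * e)) * Real.sqrt (k.natAbs.gcd l) ≤ C * (l : ℝ) ^ e := by
  obtain ⟨Cd, hCd, hd⟩ := Pool.Agent.H510R2.divisor_bound e he
  have hsum : Summable (fun k : ℤ => |(k : ℝ)| ^ (-(1 + 2 * e))) :=
    Real.summable_abs_int_rpow (by linarith)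
  set Z := ∑' k : ℤ, |(k : ℝ)| ^ (-(1 + 2 * e)) with hZ
  have hZ0 : 0 ≤ Z := tsum_nonneg (fun k => by positivity)
  refine ⟨(Z + 1) * Cd, by positivity, fun l hl => ?_⟩
  have hl0 : l ≠ 0 := by omega
  -- multiples of `g`
  have hg : ∀ g : ℕ, 1 ≤ g → Summable (fun k : ℤ => if (g : ℤ) ∣ k then
      |(k : ℝ)| ^ (-(1 + 2 * e)) else 0) ∧
      ∑' k : ℤ, (if (g : ℤ) ∣ k then |(k : ℝ)| ^ (-(1 + 2 * e)) else 0) =
        (g : ℝ) ^ (-(1 + 2 * e)) * Z := by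
    intro g hg1
    have hg0 : (g : ℤ) ≠ 0 := by positivity
    have hinj : Function.Injective (fun m : ℤ => (g : ℤ) * m) := fun a b hab =>
      mul_left_cancel₀ hg0 hab
    constructor
    · refine Summable.of_nonneg_of_le (fun k => ?_) (fun k => ?_) hsum
      · split_ifs <;> positivity
      · split_ifs
        · exact le_rfl
        · positivity
    · rw [← hinj.tsum_eq, hZ, ← tsum_mul_left]
      · refine tsum_congr fun m => ?_
        rw [if_pos (dvd_mul_right _ _)]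
        push_cast
        rw [abs_mul, Nat.abs_cast, Real.mul_rpow (by positivity) (by positivity)]
      · intro k hk
        rw [Function.mem_support] at hk
        by_cases h : (g : ℤ) ∣ k
        · obtain ⟨m, rfl⟩ := h
          exact ⟨m, rfl⟩
        · rw [if_neg h] at hk
          exact absurd rfl hk
  let U : ℤ → ℝ := fun k => ∑ g ∈ l.divisors, Real.sqrt g *
    (if (g : ℤ) ∣ k then |(k : ℝ)| ^ (-(1 + 2 * e)) else 0)
  have hle : ∀ k : ℤ, |(k : ℝ)| ^ (-(1 + 2 * e)) * Real.sqrt (k.natAbs.gcd l) ≤ U k := by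
    intro k
    have hmem : k.natAbs.gcd l ∈ l.divisors := Nat.mem_divisors.mpr ⟨Nat.gcd_dvd_right _ _, hl0⟩
    have hnn : ∀ g ∈ l.divisors, 0 ≤ Real.sqrt g *
        (if (g : ℤ) ∣ k then |(k : ℝ)| ^ (-(1 + 2 * e)) else 0) := by
      intro g _
      refine mul_nonneg (Real.sqrt_nonneg _) ?_
      split_ifs <;> positivity
    have h1 := Finset.single_le_sum hnn hmem
    have h2 : ((k.natAbs.gcd l : ℕ) : ℤ) ∣ k :=
      Int.natCast_dvd.mpr (Nat.gcd_dvd_left _ _)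
    rw [if_pos h2] at h1
    rw [mul_comm]
    exact h1
  have hUs : HasSum U (∑ g ∈ l.divisors, Real.sqrt g * ((g : ℝ) ^ (-(1 + 2 * e)) * Z)) := by
    refine hasSum_sum fun g hgm => ?_
    have hg1 : 1 ≤ g := Nat.pos_of_mem_divisors hgm
    obtain ⟨h1, h2⟩ := hg g hg1
    have := (h1.hasSum).mul_left (Real.sqrt g)
    rwa [h2] at this
  have hS : Summable (fun k : ℤ => |(k : ℝ)| ^ (-(1 + 2 * e)) * Real.sqrt (k.natAbs.gcd l)) :=
    Summable.of_nonneg_of_le (fun k => by positivity) hle hUs.summable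
  refine ⟨hS, ?_⟩
  calc ∑' k : ℤ, |(k : ℝ)| ^ (-(1 + 2 * e)) * Real.sqrt (k.natAbs.gcd l) ≤ ∑' k, U k :=
        hS.tsum_le_tsum hle hUs.summable
    _ = ∑ g ∈ l.divisors, Real.sqrt g * ((g : ℝ) ^ (-(1 + 2 * e)) * Z) := hUs.tsum_eq
    _ ≤ ∑ g ∈ l.divisors, Z := by
        refine Finset.sum_le_sum fun g hgm => ?_
        have hg1 : (1 : ℝ) ≤ g := by exact_mod_cast Nat.pos_of_mem_divisors hgm
        have h3 : Real.sqrt g * (g : ℝ) ^ (-(1 + 2 * e)) ≤ 1 := by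
          rw [Real.sqrt_eq_rpow, ← Real.rpow_add (by linarith)]
          exact Real.rpow_le_one_of_one_le_of_nonpos hg1 (by linarith)
        calc Real.sqrt g * ((g : ℝ) ^ (-(1 + 2 * e)) * Z) =
            (Real.sqrt g * (g : ℝ) ^ (-(1 + 2 * e))) * Z := by ring
          _ ≤ 1 * Z := mul_le_mul_of_nonneg_right h3 hZ0
          _ = Z := one_mul Z
    _ = l.divisors.card * Z := by rw [Finset.sum_const, nsmul_eq_mul]
    _ ≤ (Cd * (l : ℝ) ^ e) * (Z + 1) := by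
        refine mul_le_mul (hd l hl) (by linarith) hZ0 (by positivity)
    _ = (Z + 1) * Cd * (l : ℝ) ^ e := by ring

theorem core (hE3 : SE3) (hE4 : SE4) (hE5 : SE5) (F : ℝ → ℝ) (hF : TF F) (q : ℕ) (hq : Even q)
    (hq0 : q ≠ 0) (ε : ℝ) (hε : 0 < ε) :
    ∃ C : ℝ, 0 < C ∧ ∀ (X L : ℝ) (w1 w2 : ℝ → ℝ) (s B1 B2 : ℝ) (l N : ℕ), 1 ≤ X → 1 ≤ L →
      Wt s w1 → Wt s w2 → Bd 1 w1 B1 → Bd 1 w2 B2 → Odd l → 1 ≤ N →
      Real.exp (s * L) ≤ N → 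
      Summable (fun k : ℤ => if IsSquare k then 0 else
        |∑ a ∈ Icc 1 N, ∑ b ∈ Icc 1 N, if (a * b).Coprime q then
          Gk k (a * b * l) / Real.sqrt ((a : ℝ) * b) * ph F X L w1 w2 k l a b else 0|) ∧
      (∑' k : ℤ, if IsSquare k then 0 else
        |∑ a ∈ Icc 1 N, ∑ b ∈ Icc 1 N, if (a * b).Coprime q then
          Gk k (a * b * l) / Real.sqrt ((a : ℝ) * b) * ph F X L w1 w2 k l a b else 0|) ≤
      C * B1 * B2 * X ^ (-(3 / 2) : ℝ) * (l : ℝ) ^ (1 + ε) * (N : ℝ) ^ (2 + ε) := by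
  set e := ε / 16 with he
  have he0 : 0 < e := by positivity
  obtain ⟨C3, hC3, h3⟩ := hE3 q hq hq0 e he0
  obtain ⟨C4, hC4, h4⟩ := hE4 F hF (3 / 2 + 3 * e) (by positivity)
  obtain ⟨Cf, hCf, hf⟩ := sum_freq e he0
  refine ⟨C3 * C4 * Cf, by positivity, ?_⟩
  intro X L w1 w2 s B1 B2 l N hX hL hw1 hw2 hB1 hB2 hl hN hexp
  have hX0 : 0 < X := by linarith
  have hL0 : 0 < L := by linarith
  have hl1 : 1 ≤ l := hl.pos
  have hlr : (1 : ℝ) ≤ l := by exact_mod_cast hl1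
  have hNr : (1 : ℝ) ≤ N := by exact_mod_cast hN
  have hB1' : 0 ≤ B1 := (abs_nonneg _).trans (hB1 0 (by norm_num) 0)
  have hB2' : 0 ≤ B2 := (abs_nonneg _).trans (hB2 0 (by norm_num) 0)
  set K : ℝ := C3 * (C4 * B1 * B2) * ((l : ℝ) ^ (1 + 4 * e) * X ^ (-(3 / 2) - 3 * e) *
    ((N : ℝ) ^ (2 + 8 * e))) with hK
  have hK0 : 0 ≤ K := by positivity
  -- vanishing
  have hvan : ∀ (w : ℝ → ℝ), Wt s w → ∀ a : ℕ, N < a → w (Real.log a / L) = 0 := by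
    intro w hw a ha
    by_contra hne
    have h5 := (hw.supp _ hne).2
    rw [div_le_iff₀ hL0] at h5
    have ha' : (N : ℝ) < a := by exact_mod_cast ha
    have ha0 : (0 : ℝ) < a := by linarith
    have h6 := Real.exp_le_exp.mpr h5
    rw [Real.exp_log ha0] at h6
    linarith
  have hkey : ∀ k : ℤ, ¬ IsSquare k →
      |∑ a ∈ Icc 1 N, ∑ b ∈ Icc 1 N, if (a * b).Coprime q then
          Gk k (a * b * l) / Real.sqrt ((a : ℝ) * b) * ph F X L w1 w2 k l a b else 0| ≤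
      K * (|(k : ℝ)| ^ (-(1 + 2 * e)) * Real.sqrt (k.natAbs.gcd l)) := by
    intro k hk
    have hk0 : k ≠ 0 := by rintro rfl; exact hk (IsSquare.zero)
    have hka : (k.natAbs : ℝ) = |(k : ℝ)| := by rw [Nat.cast_natAbs]; push_cast; rfl
    have hkp : (0 : ℝ) < |(k : ℝ)| := abs_pos.mpr (by exact_mod_cast hk0)
    have hre : ∑ a ∈ Icc 1 N, ∑ b ∈ Icc 1 N, (if (a * b).Coprime q then
          Gk k (a * b * l) / Real.sqrt ((a : ℝ) * b) * ph F X L w1 w2 k l a b else 0) =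
        ∑ a ∈ Icc 1 N, ∑ b ∈ Icc 1 N, (if (a * b).Coprime q then
          Gk k (a * b * l) / Real.sqrt ((a : ℝ) * b) else 0) * ph F X L w1 w2 k l a b := by
      refine Finset.sum_congr rfl fun a _ => Finset.sum_congr rfl fun b _ => ?_
      rw [ite_mul, zero_mul]
    rw [hre, hE5 (fun a b => if (a * b).Coprime q then
          Gk k (a * b * l) / Real.sqrt ((a : ℝ) * b) else 0) (fun a b => ph F X L w1 w2 k l a b) N
      (fun a b ha => by simp only [ph, hvan w1 hw1 a ha]; ring)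
      (fun a b hb => by simp only [ph, hvan w2 hw2 b hb]; ring)]
    have hterm : ∀ i ∈ Icc 1 N, ∀ j ∈ Icc 1 N,
        |(∑ a ∈ Icc 1 i, ∑ b ∈ Icc 1 j, if (a * b).Coprime q then
          Gk k (a * b * l) / Real.sqrt ((a : ℝ) * b) else 0) *
        (ph F X L w1 w2 k l (i + 1) (j + 1) - ph F X L w1 w2 k l (i + 1) j -
          ph F X L w1 w2 k l i (j + 1) + ph F X L w1 w2 k l i j)| ≤
        C3 * (C4 * B1 * B2) * ((l : ℝ) ^ (1 + 4 * e) * X ^ (-(3 / 2) - 3 * e) *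
          (N : ℝ) ^ (8 * e)) * (|(k : ℝ)| ^ (-(1 + 2 * e)) * Real.sqrt (k.natAbs.gcd l)) := by
      intro i hi j hj
      rw [Finset.mem_Icc] at hi hj
      have hi1 : (1 : ℝ) ≤ i := by exact_mod_cast hi.1
      have hj1 : (1 : ℝ) ≤ j := by exact_mod_cast hj.1
      have hiN : (i : ℝ) ≤ N := by exact_mod_cast hi.2
      have hjN : (j : ℝ) ≤ N := by exact_mod_cast hj.2
      rw [abs_mul]
      have e3 := h3 k l i j hk hl
      have e4 := h4 X L w1 w2 s B1 B2 k l i j hX0 hL hw1 hw2 hB1 hB2 hk0 hl1 hi.1 hj.1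
      have ht : (0 : ℝ) < (i : ℝ) * j := by positivity
      have hpow := pow_id e ((i : ℝ) * j) |(k : ℝ)| l X ht hkp (by linarith) hX0
      have htN : ((i : ℝ) * j) ^ (4 * e) ≤ (N : ℝ) ^ (8 * e) := by
        have h7 : (i : ℝ) * j ≤ (N : ℝ) ^ (2 : ℝ) := by
          rw [show (2 : ℝ) = ((2 : ℕ) : ℝ) by norm_num, Real.rpow_natCast, pow_two]
          exact mul_le_mul hiN hjN (by linarith) (by linarith)
        calc ((i : ℝ) * j) ^ (4 * e) ≤ ((N : ℝ) ^ (2 : ℝ)) ^ (4 * e) :=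
              Real.rpow_le_rpow ht.le h7 (by positivity)
          _ = (N : ℝ) ^ (8 * e) := by
              rw [← Real.rpow_mul (by linarith)]; congr 1; ring
      rw [hka] at e3 e4
      refine (mul_le_mul e3 e4 (abs_nonneg _) (by positivity)).trans ?_
      have hrew : C3 * ((i : ℝ) * j) ^ (1 / 2 + e) * |(k : ℝ)| ^ (1 / 2 + e) * (l : ℝ) ^ (1 / 2 + e) *
          Real.sqrt (k.natAbs.gcd l) * (C4 * B1 * B2 / (((i : ℝ) * j) ^ 2 * l) *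
            ((i : ℝ) * j * l / (|(k : ℝ)| * X)) ^ (3 / 2 + 3 * e)) =
          C3 * (C4 * B1 * B2) * Real.sqrt (k.natAbs.gcd l) *
          (((i : ℝ) * j) ^ (1 / 2 + e) * |(k : ℝ)| ^ (1 / 2 + e) * (l : ℝ) ^ (1 / 2 + e) *
            (1 / (((i : ℝ) * j) ^ 2 * l) * ((i : ℝ) * j * l / (|(k : ℝ)| * X)) ^ (3 / 2 + 3 * e))) := by
        ring
      rw [hrew, hpow]
      have hfin : C3 * (C4 * B1 * B2) * Real.sqrt (k.natAbs.gcd l) *
          (((i : ℝ) * j) ^ (4 * e) * (l : ℝ) ^ (1 + 4 * e) * |(k : ℝ)| ^ (-(1 + 2 * e)) *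
            X ^ (-(3 / 2) - 3 * e)) =
          (C3 * (C4 * B1 * B2) * ((l : ℝ) ^ (1 + 4 * e) * X ^ (-(3 / 2) - 3 * e)) *
          (|(k : ℝ)| ^ (-(1 + 2 * e)) * Real.sqrt (k.natAbs.gcd l))) * ((i : ℝ) * j) ^ (4 * e) := by
        ring
      rw [hfin]
      refine (mul_le_mul_of_nonneg_left htN (by positivity)).trans (le_of_eq ?_)
      ring
    refine (Finset.abs_sum_le_sum_abs _ _).trans ?_
    refine (Finset.sum_le_sum fun i hi => (Finset.abs_sum_le_sum_abs _ _).trans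
      (Finset.sum_le_sum fun j hj => hterm i hi j hj)).trans ?_
    rw [Finset.sum_const, Finset.sum_const, Nat.card_Icc, Nat.add_sub_cancel, nsmul_eq_mul,
      nsmul_eq_mul, hK]
    refine le_of_eq ?_
    have hNN : (N : ℝ) ^ (2 + 8 * e) = N * N * (N : ℝ) ^ (8 * e) := by
      rw [Real.rpow_add (by linarith), show (2 : ℝ) = ((2 : ℕ) : ℝ) by norm_num, Real.rpow_natCast]
      ring
    rw [hNN]
    ring
  obtain ⟨hS, hT⟩ := hf l hl1
  have hle : ∀ k : ℤ, (if IsSquare k then 0 else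
        |∑ a ∈ Icc 1 N, ∑ b ∈ Icc 1 N, if (a * b).Coprime q then
          Gk k (a * b * l) / Real.sqrt ((a : ℝ) * b) * ph F X L w1 w2 k l a b else 0|) ≤
        K * (|(k : ℝ)| ^ (-(1 + 2 * e)) * Real.sqrt (k.natAbs.gcd l)) := by
    intro k
    split_ifs with h
    · positivity
    · exact hkey k h
  have hS1 : Summable (fun k : ℤ => if IsSquare k then 0 else
        |∑ a ∈ Icc 1 N, ∑ b ∈ Icc 1 N, if (a * b).Coprime q then
          Gk k (a * b * l) / Real.sqrt ((a : ℝ) * b) * ph F X L w1 w2 k l a b else 0|) := by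
    refine Summable.of_nonneg_of_le (fun k => ?_) hle (hS.mul_left K)
    split_ifs
    · exact le_rfl
    · exact abs_nonneg _
  refine ⟨hS1, ?_⟩
  refine (hS1.tsum_le_tsum hle (hS.mul_left K)).trans ?_
  rw [tsum_mul_left]
  refine (mul_le_mul_of_nonneg_left hT hK0).trans ?_
  have h8 : (l : ℝ) ^ (1 + 4 * e) * (l : ℝ) ^ e ≤ (l : ℝ) ^ (1 + ε) := by
    rw [← Real.rpow_add (by linarith)]
    exact Real.rpow_le_rpow_of_exponent_le hlr (by rw [he]; linarith)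
  have h9 : X ^ (-(3 / 2) - 3 * e) ≤ X ^ (-(3 / 2) : ℝ) :=
    Real.rpow_le_rpow_of_exponent_le hX (by linarith)
  have h10 : (N : ℝ) ^ (2 + 8 * e) ≤ (N : ℝ) ^ (2 + ε) :=
    Real.rpow_le_rpow_of_exponent_le hNr (by rw [he]; linarith)
  calc K * (Cf * (l : ℝ) ^ e) = C3 * C4 * Cf * B1 * B2 * (X ^ (-(3 / 2) - 3 * e) *
        ((l : ℝ) ^ (1 + 4 * e) * (l : ℝ) ^ e) * (N : ℝ) ^ (2 + 8 * e)) := by rw [hK]; ring
    _ ≤ C3 * C4 * Cf * B1 * B2 * (X ^ (-(3 / 2) : ℝ) * (l : ℝ) ^ (1 + ε) * (N : ℝ) ^ (2 + ε)) := by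
        refine mul_le_mul_of_nonneg_left ?_ (by positivity)
        refine mul_le_mul (mul_le_mul h9 h8 (by positivity) (by positivity)) h10 (by positivity)
          (by positivity)
    _ = _ := by ring

/-- E6, from E3 and E4 (E5 is proved in `RZ_E5`) -/
theorem E6 (hE3 : SE3) (hE4 : SE4) (F : ℝ → ℝ) (hF : TF F) (q : ℕ) (hq : Even q) (hq0 : q ≠ 0)
    (ε : ℝ) (hε : 0 < ε) :
    ∃ C : ℝ, 0 < C ∧ ∀ (X L : ℝ) (w1 w2 : ℝ → ℝ) (s B1 B2 : ℝ) (l N : ℕ), 1 ≤ X → 1 ≤ L →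
      Wt s w1 → Wt s w2 → Bd 1 w1 B1 → Bd 1 w2 B2 → Odd l → 1 ≤ N →
      Real.exp (s * L) ≤ N → 
      Summable (fun k : ℤ => if IsSquare k then 0 else
        |∑ a ∈ Icc 1 N, ∑ b ∈ Icc 1 N, if (a * b).Coprime q then
          Gk k (a * b * l) / Real.sqrt ((a : ℝ) * b) * ph F X L w1 w2 k l a b else 0|) ∧
      (∑' k : ℤ, if IsSquare k then 0 else
        |∑ a ∈ Icc 1 N, ∑ b ∈ Icc 1 N, if (a * b).Coprime q then
          Gk k (a * b * l) / Real.sqrt ((a : ℝ) * b) * ph F X L w1 w2 k l a b else 0|) ≤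
      C * B1 * B2 * X ^ (-(3 / 2) : ℝ) * (l : ℝ) ^ (1 + ε) * (N : ℝ) ^ (2 + ε) :=
  core hE3 hE4 Pool.Agent.H60R2.RZE5.E5 F hF q hq hq0 ε hε

end Pool.Agent.H60R2.RZE6
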