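import Pool.Agent.H306R2.RZ.Defs2
import Pool.Agent.H60R2.RZ2_C1

set_option autoImplicit false

/-! Project RZ, task C2: the functional equation of the theta function. -/

namespace Pool.Agent.H60R2.RZC2

open Finset Filter Topology MeasureTheory
open Pool.Agent.H306R2.RZ
open Pool.Agent.H60R2.RZC1 (C1 js_eq E_even)

noncomputable section

/-- the Gaussian -/
def hh (q y : ℝ) (n : ℝ) : ℝ := Real.exp (-(Real.pi * n ^ 2 * y / q))

/-- sum over a residue class -/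
def HH (q : ℕ) (y : ℝ) (a : ℕ) : ℝ := ∑' m : ℕ, hh q y ((q * m + a : ℕ) : ℝ)

lemma summable_hh {q : ℕ} (hq : 0 < q) {y : ℝ} (hy : 0 < y) (c : ℝ) :
    Summable fun m : ℤ => hh q y (q * m + c) := by
  have hqy : 0 < (q : ℝ) * y := by positivity
  have h := (HurwitzZeta.hasSum_int_evenKernel (c / q) hqy).summable
  refine h.congr fun m => ?_
  unfold hh
  congr 1
  have : (q : ℝ) ≠ 0 := by positivity
  field_simp

lemma summable_hh_nat {q : ℕ} (hq : 0 < q) {y : ℝ} (hy : 0 < y) (a : ℕ) :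
    Summable fun m : ℕ => hh q y ((q * m + a : ℕ) : ℝ) := by
  have h := (summable_hh hq hy (a : ℝ)).comp_injective
    (i := fun m : ℕ => (m : ℤ)) Nat.cast_injective
  refine h.congr fun m => ?_
  simp only [Function.comp_apply]
  push_cast
  rfl

/-- the even kernel as a sum over two residue classes -/
lemma evenKernel_eq {q : ℕ} (hq : 0 < q) {y : ℝ} (hy : 0 < y) (a : ℕ) (ha : a ≤ q) :
    HurwitzZeta.evenKernel (((a : ℝ) / q : ℝ) : UnitAddCircle) (q * y) =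
      HH q y a + HH q y (q - a) := by
  have hqy : 0 < (q : ℝ) * y := by positivity
  have hq' : (q : ℝ) ≠ 0 := by positivity
  have h := HurwitzZeta.hasSum_int_evenKernel ((a : ℝ) / q) hqy
  have h1 : HasSum (fun m : ℕ => Real.exp (-Real.pi * (((m : ℤ) : ℝ) + (a : ℝ) / q) ^ 2 * (q * y)))
      (HH q y a) := by
    have h2 := (summable_hh_nat hq hy a).hasSum
    have h3 : (fun m : ℕ => Real.exp (-Real.pi * (((m : ℤ) : ℝ) + (a : ℝ) / q) ^ 2 * (q * y))) =
        fun m : ℕ => hh q y ((q * m + a : ℕ) : ℝ) := by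
      funext m
      unfold hh
      congr 1
      push_cast
      field_simp
    rw [h3]
    exact h2
  have h2 : HasSum (fun m : ℕ => Real.exp (-Real.pi * (((-((m : ℤ) + 1) : ℤ) : ℝ) +
      (a : ℝ) / q) ^ 2 * (q * y))) (HH q y (q - a)) := by
    have h2 := (summable_hh_nat hq hy (q - a)).hasSum
    have h3 : (fun m : ℕ => Real.exp (-Real.pi * (((-((m : ℤ) + 1) : ℤ) : ℝ) +
        (a : ℝ) / q) ^ 2 * (q * y))) = fun m : ℕ => hh q y ((q * m + (q - a) : ℕ) : ℝ) := by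
      funext m
      unfold hh
      congr 1
      rw [Nat.cast_add, Nat.cast_sub ha]
      push_cast
      field_simp
      ring
    rw [h3]
    exact h2
  have h3 := HasSum.of_nat_of_neg_add_one
    (f := fun m : ℤ => Real.exp (-Real.pi * ((m : ℝ) + (a : ℝ) / q) ^ 2 * (q * y))) h1 h2
  exact h.unique h3

lemma sum_zmod (q : ℕ) [NeZero q] (g : ℕ → ℝ) : ∑ j : ZMod q, g j.val = ∑ a ∈ range q, g a := by
  obtain ⟨k, rfl⟩ := Nat.exists_eq_succ_of_ne_zero (NeZero.ne q)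
  exact Fin.sum_univ_eq_sum_range g _

lemma js_period (d : ℕ) (hd : Odd d) (hs : Squarefree d) (m k : ℕ) (hm : m ≠ 0) :
    js (8 * (d : ℤ)) (m + 8 * d * k) = js (8 * (d : ℤ)) m := by
  induction k with
  | zero => simp
  | succ k ih =>
    rw [show m + 8 * d * (k + 1) = (m + 8 * d * k) + 8 * d by ring,
      (C1 d hd hs 1 one_ne_zero).2.2.1 _ (by omega), ih]

lemma js_top (d : ℕ) (hd : Odd d) : js (8 * (d : ℤ)) (8 * d) = 0 := by
  have := hd.pos
  rw [js_eq d hd (8 * d) (by omega), E_even d (8 * d) (by omega), zero_mul]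

lemma js_abs (k : ℤ) (n : ℕ) : |js k n| ≤ 1 := by
  unfold js
  rcases jacobiSym.trichotomy k n with h | h | h <;> rw [h] <;> simp

lemma summable_term {q : ℕ} (hq : 0 < q) {y : ℝ} (hy : 0 < y) (k : ℤ) :
    Summable fun n : ℕ => js k (n + 1) * hh q y ((n : ℝ) + 1) := by
  have h0 : 0 < y / q := by positivity
  have h := (HurwitzZeta.hasSum_int_evenKernel 0 h0).summable
  have h1 := h.comp_injective (i := fun n : ℕ => (n : ℤ) + 1) (fun a b hab => by
    simp only at hab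
    omega)
  refine Summable.of_norm_bounded h1 fun n => ?_
  rw [norm_mul, Real.norm_eq_abs, Real.norm_eq_abs]
  have e1 : |hh q y ((n : ℝ) + 1)| = Real.exp (-Real.pi * ((((n : ℤ) + 1 : ℤ) : ℝ) + 0) ^ 2 *
      (y / q)) := by
    unfold hh
    rw [abs_of_pos (Real.exp_pos _)]
    congr 1
    push_cast
    ring
  rw [e1]
  exact mul_le_of_le_one_left (Real.exp_pos _).le (js_abs _ _)

/-- the theta function as a sum over residue classes -/
lemma th_eq (d : ℕ) (hd : Odd d) (hs : Squarefree d) {y : ℝ} (hy : 0 < y) :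
    th d y = ∑ a ∈ Icc 1 (8 * d), js (8 * (d : ℤ)) a * HH (8 * d) y a := by
  have hd0 : 0 < d := hd.pos
  have hq : 0 < 8 * d := by omega
  have : NeZero (8 * d) := ⟨hq.ne'⟩
  have h1 : th d y = ∑' n : ℕ, js (8 * (d : ℤ)) (n + 1) * hh ((8 * d : ℕ) : ℝ) y ((n : ℝ) + 1) := by
    unfold th hh
    push_cast
    rfl
  rw [h1, Nat.sumByResidueClasses (summable_term hq hy _) (8 * d)]
  have h2 : ∀ j : ZMod (8 * d), ∑' m : ℕ, js (8 * (d : ℤ)) (j.val + 8 * d * m + 1) *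
      hh ((8 * d : ℕ) : ℝ) y (((j.val + 8 * d * m : ℕ) : ℝ) + 1) =
      js (8 * (d : ℤ)) (j.val + 1) * HH (8 * d) y (j.val + 1) := by
    intro j
    unfold HH
    rw [← tsum_mul_left]
    congr 1
    funext m
    rw [show j.val + 8 * d * m + 1 = (j.val + 1) + 8 * d * m by ring,
      js_period d hd hs _ m (by omega)]
    congr 2
    push_cast
    ring
  rw [Finset.sum_congr rfl fun j _ => h2 j,
    sum_zmod (8 * d) (fun a => js (8 * (d : ℤ)) (a + 1) * HH (8 * d) y (a + 1)),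
    Finset.range_eq_Ico, Finset.sum_Ico_add' (fun a => js (8 * (d : ℤ)) a * HH (8 * d) y a)]
  refine Finset.sum_congr ?_ fun _ _ => rfl
  ext x
  simp only [mem_Ico, mem_Icc]
  omega

lemma sum_even (d : ℕ) (hd : Odd d) (hs : Squarefree d) {y : ℝ} (hy : 0 < y) :
    ∑ a ∈ Icc 1 (8 * d), js (8 * (d : ℤ)) a *
      HurwitzZeta.evenKernel (((a : ℝ) / ((8 * d : ℕ) : ℝ) : ℝ) : UnitAddCircle)
        (((8 * d : ℕ) : ℝ) * y) = 2 * th d y := by
  have hd0 : 0 < d := hd.pos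
  have hq : 0 < 8 * d := by omega
  have h1 : ∀ a ∈ Icc 1 (8 * d), js (8 * (d : ℤ)) a *
      HurwitzZeta.evenKernel (((a : ℝ) / ((8 * d : ℕ) : ℝ) : ℝ) : UnitAddCircle)
        (((8 * d : ℕ) : ℝ) * y) = js (8 * (d : ℤ)) a * HH (8 * d) y a +
          js (8 * (d : ℤ)) a * HH (8 * d) y (8 * d - a) := by
    intro a ha
    rw [evenKernel_eq hq hy a (mem_Icc.1 ha).2]
    ring
  rw [Finset.sum_congr rfl h1, Finset.sum_add_distrib]
  have hIcc : Icc 1 (8 * d) = Ico 1 (8 * d + 1) := by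
    ext x
    simp only [mem_Icc, mem_Ico]
    omega
  have h2 : ∑ a ∈ Icc 1 (8 * d), js (8 * (d : ℤ)) a * HH (8 * d) y (8 * d - a) =
      ∑ a ∈ Icc 1 (8 * d), js (8 * (d : ℤ)) a * HH (8 * d) y a := by
    rw [hIcc, Finset.sum_Ico_succ_top (by omega), Finset.sum_Ico_succ_top (by omega), js_top d hd]
    simp only [zero_mul, add_zero]
    have h3 : ∀ a ∈ Ico 1 (8 * d), js (8 * (d : ℤ)) a * HH (8 * d) y (8 * d - a) =
        (fun b => js (8 * (d : ℤ)) b * HH (8 * d) y b) (8 * d - a) := by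
      intro a ha
      have ha' := mem_Ico.1 ha
      simp only
      rw [(C1 d hd hs 1 one_ne_zero).2.2.2 a (by omega) ha'.2]
    rw [Finset.sum_congr rfl h3,
      Finset.sum_Ico_reflect (fun b => js (8 * (d : ℤ)) b * HH (8 * d) y b) 1 (by omega)]
    refine Finset.sum_congr ?_ fun _ _ => rfl
    congr 1
    omega
  rw [h2, ← th_eq d hd hs hy]
  ring

lemma sum_cosK (d : ℕ) (hd : Odd d) (hs : Squarefree d) {y : ℝ} (hy : 0 < y) :
    ∑ a ∈ Icc 1 (8 * d), js (8 * (d : ℤ)) a *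
      HurwitzZeta.cosKernel (((a : ℝ) / ((8 * d : ℕ) : ℝ) : ℝ) : UnitAddCircle)
        (1 / (((8 * d : ℕ) : ℝ) * y)) = 2 * Real.sqrt (8 * d) * th d (1 / y) := by
  have hd0 : 0 < d := hd.pos
  have hdR : (d : ℝ) ≠ 0 := by positivity
  have hqR : (0:ℝ) < ((8 * d : ℕ) : ℝ) := by positivity
  have ht : 0 < 1 / (((8 * d : ℕ) : ℝ) * y) := by positivity
  have h0 : ∑ a ∈ Icc 1 (8 * d), js (8 * (d : ℤ)) a = 0 := by
    have h := (C1 d hd hs (8 * d) (by omega)).1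
    rw [js_top d hd, mul_zero] at h
    rw [← h]
    refine Finset.sum_congr rfl fun a _ => ?_
    have : 2 * Real.pi * (a : ℝ) * ((8 * d : ℕ) : ℝ) / (8 * d) = (a : ℝ) * (2 * Real.pi) := by
      push_cast
      field_simp
    rw [this, Real.cos_nat_mul_two_pi, mul_one]
  have hsum : HasSum (fun n : ℕ => ∑ a ∈ Icc 1 (8 * d), js (8 * (d : ℤ)) a *
      (2 * Real.cos (2 * Real.pi * ((a : ℝ) / ((8 * d : ℕ) : ℝ)) * (n + 1)) *
        Real.exp (-Real.pi * (n + 1) ^ 2 * (1 / (((8 * d : ℕ) : ℝ) * y)))))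
      (∑ a ∈ Icc 1 (8 * d), js (8 * (d : ℤ)) a *
        (HurwitzZeta.cosKernel (((a : ℝ) / ((8 * d : ℕ) : ℝ) : ℝ) : UnitAddCircle)
          (1 / (((8 * d : ℕ) : ℝ) * y)) - 1)) :=
    hasSum_sum fun a _ => (HurwitzZeta.hasSum_nat_cosKernel₀ _ ht).mul_left _
  have h1 : ∀ n : ℕ, ∑ a ∈ Icc 1 (8 * d), js (8 * (d : ℤ)) a *
      (2 * Real.cos (2 * Real.pi * ((a : ℝ) / ((8 * d : ℕ) : ℝ)) * (n + 1)) *
        Real.exp (-Real.pi * (n + 1) ^ 2 * (1 / (((8 * d : ℕ) : ℝ) * y)))) =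
      (2 * Real.sqrt (8 * d)) * (js (8 * (d : ℤ)) (n + 1) *
        hh ((8 * d : ℕ) : ℝ) (1 / y) ((n : ℝ) + 1)) := by
    intro n
    have h := (C1 d hd hs (n + 1) (by omega)).1
    have e1 : ∀ a ∈ Icc 1 (8 * d), js (8 * (d : ℤ)) a *
        (2 * Real.cos (2 * Real.pi * ((a : ℝ) / ((8 * d : ℕ) : ℝ)) * (n + 1)) *
          Real.exp (-Real.pi * (n + 1) ^ 2 * (1 / (((8 * d : ℕ) : ℝ) * y)))) =
        (js (8 * (d : ℤ)) a * Real.cos (2 * Real.pi * a * ((n + 1 : ℕ) : ℝ) / (8 * d))) *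
          (2 * hh ((8 * d : ℕ) : ℝ) (1 / y) ((n : ℝ) + 1)) := by
      intro a _
      have f1 : 2 * Real.pi * ((a : ℝ) / ((8 * d : ℕ) : ℝ)) * ((n : ℝ) + 1) =
          2 * Real.pi * a * ((n + 1 : ℕ) : ℝ) / (8 * d) := by
        push_cast
        ring
      have f2 : Real.exp (-Real.pi * ((n : ℝ) + 1) ^ 2 * (1 / (((8 * d : ℕ) : ℝ) * y))) =
          hh ((8 * d : ℕ) : ℝ) (1 / y) ((n : ℝ) + 1) := by
        unfold hh
        congr 1
        field_simp
      rw [f1, f2]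
      ring
    rw [Finset.sum_congr rfl e1, ← Finset.sum_mul, h]
    ring
  simp only [h1] at hsum
  have h2 := hsum.tsum_eq
  rw [tsum_mul_left] at h2
  have h3 : ∑' n : ℕ, js (8 * (d : ℤ)) (n + 1) * hh ((8 * d : ℕ) : ℝ) (1 / y) ((n : ℝ) + 1) =
      th d (1 / y) := by
    unfold th hh
    push_cast
    rfl
  rw [h3] at h2
  rw [h2]
  have h4 : ∀ a ∈ Icc 1 (8 * d), js (8 * (d : ℤ)) a *
        (HurwitzZeta.cosKernel (((a : ℝ) / ((8 * d : ℕ) : ℝ) : ℝ) : UnitAddCircle)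
          (1 / (((8 * d : ℕ) : ℝ) * y)) - 1) = js (8 * (d : ℤ)) a *
        HurwitzZeta.cosKernel (((a : ℝ) / ((8 * d : ℕ) : ℝ) : ℝ) : UnitAddCircle)
          (1 / (((8 * d : ℕ) : ℝ) * y)) - js (8 * (d : ℤ)) a := by
    intro a _
    ring
  rw [Finset.sum_congr rfl h4, Finset.sum_sub_distrib, h0, sub_zero]

theorem C2 (d : ℕ) (hd : Odd d) (hs : Squarefree d) (y : ℝ) (hy : 0 < y) :
    th d (1 / y) = Real.sqrt y * th d y := by
  have hd0 : 0 < d := hd.pos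
  have hqR : (0:ℝ) < ((8 * d : ℕ) : ℝ) := by positivity
  have h1 := sum_even d hd hs hy
  have h2 := sum_cosK d hd hs hy
  have h3 : ∀ a ∈ Icc 1 (8 * d), js (8 * (d : ℤ)) a *
      HurwitzZeta.evenKernel (((a : ℝ) / ((8 * d : ℕ) : ℝ) : ℝ) : UnitAddCircle)
        (((8 * d : ℕ) : ℝ) * y) = (1 / Real.sqrt (((8 * d : ℕ) : ℝ) * y)) *
        (js (8 * (d : ℤ)) a *
      HurwitzZeta.cosKernel (((a : ℝ) / ((8 * d : ℕ) : ℝ) : ℝ) : UnitAddCircle)
        (1 / (((8 * d : ℕ) : ℝ) * y))) := by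
    intro a _
    rw [HurwitzZeta.evenKernel_functional_equation, Real.sqrt_eq_rpow]
    ring
  rw [Finset.sum_congr rfl h3, ← Finset.mul_sum, h2] at h1
  have hs1 : Real.sqrt (((8 * d : ℕ) : ℝ) * y) = Real.sqrt (8 * d) * Real.sqrt y := by
    push_cast
    rw [Real.sqrt_mul (by positivity)]
  have hp1 : 0 < Real.sqrt (8 * (d : ℝ)) := Real.sqrt_pos.2 (by positivity)
  have hp2 : 0 < Real.sqrt y := Real.sqrt_pos.2 hy
  rw [hs1] at h1
  have h4 : 1 / (Real.sqrt (8 * d) * Real.sqrt y) * (2 * Real.sqrt (8 * d) * th d (1 / y)) =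
      2 * th d (1 / y) / Real.sqrt y := by
    field_simp
  rw [h4, div_eq_iff hp2.ne'] at h1
  linarith

end

end Pool.Agent.H60R2.RZC2
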